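import Pool.Agent.Helper25.LS.Defs

/-! # LS / PB (MP_03bcbb_an): Bessel inequality for the lifted vectors -/

set_option autoImplicit false

open Filter Topology Module
open _root_.Pool.Agent.Helper25.LS

noncomputable section

namespace Pool.Agent.Helper7.LS

theorem pb (h1 : S_FD) : S_PB := by
  intro X _ _ U Y _ _ D H _ _ Φ L C' hC hΦ m u hu
  let A : ∀ j, EuclideanSpace ℂ (Fin m) →ₗ[ℂ] X j := fun j =>
    { toFun := fun a => ∑ k, a k • (L.σ (u k)) j
      map_add' := by
        intro a b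
        rw [← Finset.sum_add_distrib]
        exact Finset.sum_congr rfl fun k _ => by rw [PiLp.add_apply, add_smul]
      map_smul' := by
        intro c a
        rw [Finset.smul_sum]
        exact Finset.sum_congr rfl fun k _ => by
          rw [PiLp.smul_apply, smul_eq_mul, mul_smul]; rfl }
  have hA : ∀ j a, A j a = ∑ k, a k • (L.σ (u k)) j := fun j a => rfl
  have hlim : ∀ a : EuclideanSpace ℂ (Fin m), ∀ δ : ℝ, 0 < δ →
      ∀ᶠ j in (U : Filter ℕ), ‖A j a‖ ≤ 1 * ‖a‖ + δ := by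
    intro a δ hδ
    set z : lp X ⊤ := ∑ k, a k • L.σ (u k) with hz
    have hzj : ∀ j, z j = A j a := by
      intro j
      rw [hA, hz]
      have : (((∑ k, a k • L.σ (u k) : lp X ⊤)) : ∀ j, X j) = ∑ k, a k • (L.σ (u k) : ∀ j, X j) := by
        rw [lp.coeFn_sum]
        rfl
      rw [this, Finset.sum_apply]
      rfl
    have hπ : D.π z = Φ.symm (∑ k, a k • u k) := by
      rw [hz, map_sum, map_sum]
      exact Finset.sum_congr rfl fun k _ => by rw [map_smul, map_smul, L.hσ]
    have hn : ‖D.π z‖ ≤ ‖a‖ := by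
      refine (hΦ _).trans ?_
      rw [hπ, ContinuousLinearEquiv.apply_symm_apply]
      have h2 : ‖∑ k, a k • u k‖ ^ 2 = ‖a‖ ^ 2 := by
        rw [EuclideanSpace.norm_sq_eq]
        have h3 := hu.inner_sum (fun k => a k) (fun k => a k) Finset.univ
        have h4 : (‖∑ k, a k • u k‖ ^ 2 : ℝ) = RCLike.re (inner ℂ (∑ k, a k • u k) (∑ k, a k • u k)) := by
          rw [inner_self_eq_norm_sq]
        rw [h4, h3, map_sum]
        exact Finset.sum_congr rfl fun k _ => by
          rw [RCLike.conj_mul]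
          norm_cast
      exact (pow_le_pow_iff_left₀ (norm_nonneg _) (norm_nonneg _) two_ne_zero).1 h2.le
    have hlt : ‖D.π z‖ < 1 * ‖a‖ + δ := by linarith
    filter_upwards [(D.lim z).eventually_lt_const hlt] with j hj
    rw [hzj] at hj
    exact hj.le
  have h5 := h1 (EuclideanSpace ℂ (Fin m)) X U A 1 C' zero_le_one hC hlim
  filter_upwards [h5] with j hj g
  set a : EuclideanSpace ℂ (Fin m) :=
    WithLp.toLp 2 (fun k => (starRingEnd ℂ) (g (L.σ (u k) j))) with ha
  have hak : ∀ k, a k = (starRingEnd ℂ) (g (L.σ (u k) j)) := fun k => rfl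
  have hS : ‖a‖ ^ 2 = ∑ k, ‖g (L.σ (u k) j)‖ ^ 2 := by
    rw [EuclideanSpace.norm_sq_eq]
    exact Finset.sum_congr rfl fun k _ => by rw [hak, RCLike.norm_conj]
  have hg : g (A j a) = ((∑ k, ‖g (L.σ (u k) j)‖ ^ 2 : ℝ) : ℂ) := by
    rw [hA, map_sum]
    push_cast
    exact Finset.sum_congr rfl fun k _ => by
      rw [map_smul, hak, smul_eq_mul, RCLike.conj_mul]
      norm_cast
  have h6 : ‖a‖ ^ 2 ≤ ‖g‖ * (C' * ‖a‖) := by
    have h7 : ‖g (A j a)‖ = ‖a‖ ^ 2 := by
      rw [hg, Complex.norm_real, ← hS, Real.norm_of_nonneg (by positivity)]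
    rw [← h7]
    exact (g.le_opNorm _).trans (mul_le_mul_of_nonneg_left (hj a) (norm_nonneg g))
  rw [← hS]
  have h8 : ‖a‖ ≤ C' * ‖g‖ := by
    rcases eq_or_lt_of_le (norm_nonneg a) with h0 | h0
    · rw [← h0]
      have := norm_nonneg g
      nlinarith
    · nlinarith
  calc ‖a‖ ^ 2 ≤ (C' * ‖g‖) ^ 2 := by
        have := norm_nonneg a
        gcongr
    _ = C' ^ 2 * ‖g‖ ^ 2 := by ring

end Pool.Agent.Helper7.LS
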